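import Pool.Agent.Lib.MP_098da0_al.HSTypes

open Pool.Agent.Lib.MP_098da0_al

theorem Pool.Agent.Results.MP_098da0_al.Amalgam.result
    {ι : Type} [Finite ι] [Nonempty ι] {H : Type} [Group H] [Finite H]
    {G : ι → Type} [∀ i, Group (G i)] (φ : ∀ i, H →* G i)
    (hφ : ∀ i, AlmostNormal (φ i).range) :
    ((∀ i, HSStable (G i)) → HSStable (Monoid.PushoutI φ)) ∧
      ((∀ i, PStable (G i)) → PStable (Monoid.PushoutI φ)) :=
  ⟨hsStable_pushout φ hφ, pStable_pushout φ hφ⟩
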