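import Pool.Agent.Lib.AG6.Path
import Pool.Agent.Lib.AG6.HSH
import Pool.Agent.Lib.AG6.Malcev
import Pool.Agent.Lib.MP_098da0_al.HSTypes

open Pool.Agent.Lib.MP_098da0_al Pool.Agent.Lib.AG6

theorem Pool.Agent.Results.MP_098da0_al.AmenableGraph.result
    {V E : Type} [Finite V] [Finite E] {o t : E → V} {G : V → Type} [∀ v, Group (G v)]
    {H : E → Type} [∀ e, Group (H e)] [∀ e, Finite (H e)]
    (α : ∀ e, H e →* G (o e)) (β : ∀ e, H e →* G (t e))
    (hα : ∀ e, Function.Injective (α e)) (hβ : ∀ e, Function.Injective (β e))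
    (hF : ∀ v, Group.FG (G v)) (hA : ∀ v, Amenable (G v)) (v₀ : V) :
    ((∀ v, HSStable (G v)) → HSStable (fundGroup α β v₀)) ∧
      ((∀ v, PStable (G v)) → PStable (fundGroup α β v₀)) := by
  have := fun v => countable_of_fg (hF v)
  constructor
  · simp only [hsStable_iff]
    intro hG
    have := fun e => Fintype.ofFinite (H e)
    have := fun v => hs_rf (hF v) (hA v) (hG v)
    exact stable_fund α β (stable_path α β hsExt (fun e => hsHExt (H e)) (hs_cancels hα hβ)
      (by norm_num) (by norm_num) hG fun v => hs_halves (hA v)) v₀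
  · simp only [pStable_iff]
    intro hG
    have := fun v => perm_rf (hA v) (hG v)
    exact stable_fund α β (stable_path α β permExt (fun e => permHExt (H e)) (perm_cancels hα hβ)
      (by norm_num) (by norm_num) hG fun v => perm_halves (hA v)) v₀
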